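import Mathlib

set_option autoImplicit false

namespace Pool.Agent.Results.MP_540c93_co.NoFiniteFamily

open SimpleGraph

/-- `S` is an independent dominating set of `G`. -/
def IsIndepDom {V : Type} (G : SimpleGraph V) (S : Finset V) : Prop :=
  (∀ u ∈ S, ∀ v ∈ S, ¬ G.Adj u v) ∧ ∀ v, v ∉ S → ∃ u ∈ S, G.Adj u v

/-- The independent domination number `i(G)`: the least size of an independent dominating set. -/
noncomputable def indepDomNum {V : Type} (G : SimpleGraph V) : ℕ :=
  sInf {k : ℕ | ∃ S : Finset V, IsIndepDom G S ∧ S.card = k}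

/-- An `i`-set of `G`: an independent dominating set of size `i(G)`. -/
def IsISet {V : Type} (G : SimpleGraph V) (S : Finset V) : Prop :=
  IsIndepDom G S ∧ S.card = indepDomNum G

/-- The `i`-graph of `G`: its vertices are the `i`-sets of `G`, and `X`, `Y` are adjacent when
`Y = (X \ {u}) ∪ {v}` for some edge `uv` of `G` with `u ∈ X` and `v ∉ X`. -/
def iGraph {V : Type} (G : SimpleGraph V) : SimpleGraph {S : Finset V // IsISet G S} where
  Adj X Y := ∃ u ∈ X.1, ∃ v, v ∉ X.1 ∧ G.Adj u v ∧ (Y.1 : Set V) = ((X.1 : Set V) \ {u}) ∪ {v}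
  symm := ⟨by
    rintro X Y ⟨u, hu, v, hv, huv, hY⟩
    have hmem : ∀ w, w ∈ Y.1 ↔ (w ∈ X.1 ∧ w ≠ u) ∨ w = v := by
      intro w
      have h1 : w ∈ (Y.1 : Set V) ↔ w ∈ ((X.1 : Set V) \ {u}) ∪ {v} := by rw [hY]
      simpa only [Finset.mem_coe, Set.mem_union, Set.mem_sdiff, Set.mem_singleton_iff] using h1
    refine ⟨v, (hmem v).2 (Or.inr rfl), u, fun h => ?_, huv.symm, ?_⟩
    · rcases (hmem u).1 h with h | h
      · exact h.2 rfl
      · exact hv (h ▸ hu)
    · ext w
      simp only [Finset.mem_coe, Set.mem_union, Set.mem_sdiff, Set.mem_singleton_iff, hmem]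
      by_cases hw : w = u
      · subst hw; simp [hu]
      · by_cases hw2 : w = v
        · subst hw2; simp [hv, hw]
        · simp [hw, hw2]⟩
  loopless := ⟨by
    rintro X ⟨u, hu, v, hv, huv, hY⟩
    have h1 : v ∈ (X.1 : Set V) := by rw [hY]; right; rfl
    exact hv h1⟩

/-- The graph `H` is an `i`-graph: it is isomorphic to the `i`-graph of some finite graph. -/
def IsIGraph {W : Type} (H : SimpleGraph W) : Prop :=
  ∃ (V : Type) (_ : Fintype V) (G : SimpleGraph V), Nonempty (H ≃g iGraph G)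

section General

variable {V : Type} {G : SimpleGraph V}

lemma iGraph_adj_mem {X Y : {S : Finset V // IsISet G S}} (h : (iGraph G).Adj X Y) :
    ∃ u ∈ X.1, u ∉ Y.1 ∧ ∃ v, v ∉ X.1 ∧ G.Adj u v ∧ ∀ w, w ∈ Y.1 ↔ (w ∈ X.1 ∧ w ≠ u) ∨ w = v := by
  obtain ⟨u, hu, v, hv, huv, hY⟩ := h
  have hmem : ∀ w, w ∈ Y.1 ↔ (w ∈ X.1 ∧ w ≠ u) ∨ w = v := by
    intro w
    have h1 : w ∈ (Y.1 : Set V) ↔ w ∈ ((X.1 : Set V) \ {u}) ∪ {v} := by rw [hY]
    simpa only [Finset.mem_coe, Set.mem_union, Set.mem_sdiff, Set.mem_singleton_iff] using h1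
  refine ⟨u, hu, fun h => ?_, v, hv, huv, hmem⟩
  rcases (hmem u).1 h with h | h
  · exact h.2 rfl
  · exact hv (h ▸ hu)

/-- Two `i`-sets that differ in at most one element of the first are equal or adjacent. -/
lemma eq_or_adj {X Y : {S : Finset V // IsISet G S}} (u : V)
    (h : ∀ x ∈ X.1, x ≠ u → x ∈ Y.1) : X = Y ∨ (iGraph G).Adj X Y := by
  classical
  have hcard : X.1.card = Y.1.card := by rw [X.2.2, Y.2.2]
  by_cases hu : u ∈ Y.1 ∨ u ∉ X.1
  · left
    apply Subtype.ext
    apply Finset.eq_of_subset_of_card_le _ hcard.ge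
    intro x hx
    by_cases hxu : x = u
    · rcases hu with hu | hu
      · rw [hxu]; exact hu
      · exact absurd (hxu ▸ hx) hu
    · exact h x hx hxu
  · right
    push Not at hu
    obtain ⟨huY, huX⟩ := hu
    have h1 : X.1 \ Y.1 = {u} := by
      ext x
      simp only [Finset.mem_sdiff, Finset.mem_singleton]
      constructor
      · rintro ⟨hx, hy⟩
        by_contra hxu
        exact hy (h x hx hxu)
      · rintro rfl
        exact ⟨huX, huY⟩
    have h2 : (Y.1 \ X.1).card = 1 := by
      have h3 := Finset.card_sdiff_add_card_inter X.1 Y.1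
      have h4 := Finset.card_sdiff_add_card_inter Y.1 X.1
      rw [h1, Finset.card_singleton] at h3
      rw [Finset.inter_comm] at h4
      omega
    obtain ⟨v, hv⟩ := Finset.card_eq_one.1 h2
    have hvY : v ∈ Y.1 ∧ v ∉ X.1 := by
      have : v ∈ Y.1 \ X.1 := by rw [hv]; exact Finset.mem_singleton_self v
      simpa using this
    obtain ⟨w, hw, hwv⟩ := X.2.1.2 v hvY.2
    have hwu : w = u := by
      by_contra hne
      exact Y.2.1.1 w (h w hw hne) v hvY.1 hwv
    refine ⟨u, huX, v, hvY.2, hwu ▸ hwv, ?_⟩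
    ext x
    simp only [Finset.mem_coe, Set.mem_union, Set.mem_sdiff, Set.mem_singleton_iff]
    constructor
    · intro hx
      by_cases hxX : x ∈ X.1
      · left
        refine ⟨hxX, ?_⟩
        rintro rfl
        exact huY hx
      · right
        have : x ∈ Y.1 \ X.1 := by simp [hx, hxX]
        rw [hv] at this
        simpa using this
    · rintro (⟨hx, hxu⟩ | rfl)
      · exact h x hx hxu
      · exact hvY.1

/-- Opposite edges of a `4`-cycle exchange the same element. -/
lemma four_cycle {X Y Z W : {S : Finset V // IsISet G S}} (hXY : (iGraph G).Adj X Y)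
    (hYZ : (iGraph G).Adj Y Z) (hXW : (iGraph G).Adj X W) (hXZ : X ≠ Z)
    (hXZ' : ¬ (iGraph G).Adj X Z) (hYW : Y ≠ W) (hYW' : ¬ (iGraph G).Adj Y W) (a : V)
    (haX : a ∈ X.1) (haY : a ∉ Y.1) : a ∈ W.1 ∧ a ∉ Z.1 := by
  obtain ⟨u, hu, huY, v, hv, -, hmem⟩ := iGraph_adj_mem hXY
  have hau : a = u := by
    by_contra hne
    exact haY ((hmem a).2 (Or.inl ⟨haX, hne⟩))
  subst hau
  constructor
  · by_contra haW
    obtain ⟨u', hu', huW', v', -, -, hmem'⟩ := iGraph_adj_mem hXW
    have hau' : a = u' := by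
      by_contra hne
      exact haW ((hmem' a).2 (Or.inl ⟨haX, hne⟩))
    subst hau'
    rcases eq_or_adj (X := Y) (Y := W) v (fun x hx hxv => by
      rcases (hmem x).1 hx with h | h
      · exact (hmem' x).2 (Or.inl h)
      · exact absurd h hxv) with h | h
    · exact hYW h
    · exact hYW' h
  · intro haZ
    obtain ⟨c, hc, hcZ, d, -, -, hmem'⟩ := iGraph_adj_mem hYZ
    rcases eq_or_adj (X := X) (Y := Z) c (fun x hx hxc => by
      by_cases hxa : x = a
      · rw [hxa]; exact haZ
      · exact (hmem' x).2 (Or.inl ⟨(hmem x).2 (Or.inl ⟨hx, hxa⟩), hxc⟩)) with h | h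
    · exact hXZ h
    · exact hXZ' h

end General

section Ladders

/-- One step forward around the Moebius ladder with `n` rungs. -/
def mstep (n : ℕ) (x y : Fin n × Bool) : Prop :=
  (x.1.val + 1 = y.1.val ∧ x.2 = y.2) ∨ (x.1.val + 1 = n ∧ y.1.val = 0 ∧ x.2 ≠ y.2)

/-- The Moebius ladder with `n` rungs. -/
def mobius (n : ℕ) (hn : 3 ≤ n) : SimpleGraph (Fin n × Bool) where
  Adj x y := (x.1 = y.1 ∧ x.2 ≠ y.2) ∨ mstep n x y ∨ mstep n y x
  symm := ⟨by
    rintro x y (⟨h1, h2⟩ | h | h)
    · exact Or.inl ⟨h1.symm, h2.symm⟩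
    · exact Or.inr (Or.inr h)
    · exact Or.inr (Or.inl h)⟩
  loopless := ⟨by
    rintro x (⟨h1, h2⟩ | h | h)
    · exact h2 rfl
    · unfold mstep at h; omega
    · unfold mstep at h; omega⟩

/-- The Moebius ladder is not an `i`-graph. -/
lemma mobius_not_iGraph (n : ℕ) (hn : 3 ≤ n) : ¬ IsIGraph (mobius n hn) := by
  rintro ⟨V, _, G, ⟨φ⟩⟩
  have hadj : ∀ x y, (mobius n hn).Adj x y → (iGraph G).Adj (φ x) (φ y) :=
    fun x y h => φ.map_adj_iff.2 h
  have hnadj : ∀ x y, ¬ (mobius n hn).Adj x y → ¬ (iGraph G).Adj (φ x) (φ y) :=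
    fun x y h h' => h (φ.map_adj_iff.1 h')
  have h0 : (mobius n hn).Adj (⟨0, by omega⟩, false) (⟨0, by omega⟩, true) :=
    Or.inl ⟨rfl, by simp⟩
  obtain ⟨a, ha, ha', -⟩ := iGraph_adj_mem (hadj _ _ h0)
  have key : ∀ i (hi : i < n), a ∈ (φ (⟨i, hi⟩, false)).1 ∧ a ∉ (φ (⟨i, hi⟩, true)).1 := by
    intro i
    induction i with
    | zero => intro hi; exact ⟨ha, ha'⟩
    | succ i ih =>
      intro hi
      obtain ⟨h1, h2⟩ := ih (by omega)
      refine four_cycle (X := φ (⟨i, by omega⟩, false)) (Y := φ (⟨i, by omega⟩, true))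
        (Z := φ (⟨i + 1, hi⟩, true)) (W := φ (⟨i + 1, hi⟩, false)) ?_ ?_ ?_ ?_ ?_ ?_ ?_ a h1 h2
      · exact hadj _ _ (Or.inl ⟨rfl, by simp⟩)
      · exact hadj _ _ (Or.inr (Or.inl (Or.inl ⟨rfl, rfl⟩)))
      · exact hadj _ _ (Or.inr (Or.inl (Or.inl ⟨rfl, rfl⟩)))
      · intro h
        have := φ.injective h
        simp at this
      · apply hnadj
        rintro (h | h | h)
        · simp at h
        · unfold mstep at h; simp at h
        · unfold mstep at h; simp at h; omega
      · intro h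
        have := φ.injective h
        simp at this
      · apply hnadj
        rintro (h | h | h)
        · simp at h
        · unfold mstep at h; simp at h
        · unfold mstep at h; simp at h; omega
  obtain ⟨h1, h2⟩ := key (n - 1) (by omega)
  have h3 : a ∈ (φ (⟨0, by omega⟩, true)).1 ∧ a ∉ (φ (⟨0, by omega⟩, false)).1 := by
    refine four_cycle (X := φ (⟨n - 1, by omega⟩, false)) (Y := φ (⟨n - 1, by omega⟩, true))
        (Z := φ (⟨0, by omega⟩, false)) (W := φ (⟨0, by omega⟩, true)) ?_ ?_ ?_ ?_ ?_ ?_ ?_ a h1 h2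
    · exact hadj _ _ (Or.inl ⟨rfl, by simp⟩)
    · refine hadj _ _ (Or.inr (Or.inl (Or.inr ⟨?_, rfl, by simp⟩)))
      change n - 1 + 1 = n
      omega
    · refine hadj _ _ (Or.inr (Or.inl (Or.inr ⟨?_, rfl, by simp⟩)))
      change n - 1 + 1 = n
      omega
    · intro h
      have := φ.injective h
      simp at this
      omega
    · apply hnadj
      rintro (h | h | h)
      · simp at h
      · unfold mstep at h; simp at h
      · unfold mstep at h; simp at h; omega
    · intro h
      have := φ.injective h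
      simp at this
      omega
    · apply hnadj
      rintro (h | h | h)
      · simp at h
      · unfold mstep at h; simp at h
      · unfold mstep at h; simp at h; omega
  exact h3.2 ha

/-- The cyclic successor on `Fin n`. -/
def nx {n : ℕ} (i : Fin n) : Fin n :=
  if h : i.val + 1 < n then ⟨i.val + 1, h⟩ else ⟨0, by have := i.2; omega⟩

lemma nx_val {n : ℕ} (i : Fin n) :
    (i.val + 1 < n ∧ (nx i).val = i.val + 1) ∨ (i.val + 1 = n ∧ (nx i).val = 0) := by
  unfold nx
  have := i.2
  split_ifs with h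
  · left; exact ⟨h, rfl⟩
  · right; exact ⟨by omega, rfl⟩

/-- The seed graph: the complement of a cycle of length `n` together with a disjoint edge. -/
def seed (n : ℕ) : SimpleGraph (Fin n ⊕ Bool) where
  Adj x y := match x, y with
    | Sum.inl i, Sum.inl j => i ≠ j ∧ j ≠ nx i ∧ i ≠ nx j
    | Sum.inr b, Sum.inr c => b ≠ c
    | _, _ => False
  symm := ⟨by
    rintro (i | b) (j | c) h
    · exact ⟨h.1.symm, h.2.2, h.2.1⟩
    · exact h
    · exact h
    · exact Ne.symm h⟩
  loopless := ⟨by
    rintro (i | b) h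
    · exact h.1 rfl
    · exact h rfl⟩

/-- The `i`-set of the seed graph given by a vertex of the prism. -/
def rep {n : ℕ} (x : Fin n × Bool) : Finset (Fin n ⊕ Bool) :=
  {Sum.inl x.1, Sum.inl (nx x.1), Sum.inr x.2}

lemma mem_rep_inl {n : ℕ} (x : Fin n × Bool) (k : Fin n) :
    Sum.inl k ∈ rep x ↔ k = x.1 ∨ k = nx x.1 := by
  simp [rep]

lemma mem_rep_inr {n : ℕ} (x : Fin n × Bool) (c : Bool) :
    Sum.inr c ∈ rep x ↔ c = x.2 := by
  simp [rep]

lemma card_rep {n : ℕ} (hn : 4 ≤ n) (x : Fin n × Bool) : (rep x).card = 3 := by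
  have h := nx_val x.1
  have h1 : x.1 ≠ nx x.1 := by
    intro h2
    have := congrArg Fin.val h2
    omega
  unfold rep
  rw [Finset.card_insert_of_notMem, Finset.card_insert_of_notMem, Finset.card_singleton]
  · simp
  · simp [h1]

lemma rep_indepDom {n : ℕ} (hn : 4 ≤ n) (x : Fin n × Bool) : IsIndepDom (seed n) (rep x) := by
  obtain ⟨i, b⟩ := x
  constructor
  · rintro (k | c) hk (l | d) hl h
    · rw [mem_rep_inl] at hk hl
      obtain ⟨h1, h2, h3⟩ := h
      rcases hk with rfl | rfl <;> rcases hl with rfl | rfl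
      · exact h1 rfl
      · exact h2 rfl
      · exact h3 rfl
      · exact h1 rfl
    · exact h
    · exact h
    · rw [mem_rep_inr] at hk hl
      exact h (hk.trans hl.symm)
  · rintro (k | c) hk
    · rw [mem_rep_inl] at hk
      push Not at hk
      simp only at hk
      by_cases h1 : i = nx k
      · refine ⟨Sum.inl (nx i), (mem_rep_inl _ _).2 (Or.inr rfl), ?_, ?_, ?_⟩
        · exact fun h => hk.2 h.symm
        · intro h
          have a1 := nx_val i
          have a2 := nx_val k
          have a3 := nx_val (nx i)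
          have a4 := congrArg Fin.val h
          have a5 := congrArg Fin.val h1
          omega
        · intro h
          rw [← h1] at h
          have a1 := nx_val i
          have a4 := congrArg Fin.val h
          omega
      · exact ⟨Sum.inl i, (mem_rep_inl _ _).2 (Or.inl rfl), fun h => hk.1 h.symm, hk.2, h1⟩
    · rw [mem_rep_inr] at hk
      exact ⟨Sum.inr b, (mem_rep_inr _ _).2 rfl, fun h => hk h.symm⟩

lemma three_le {n : ℕ} (hn : 4 ≤ n) (S : Finset (Fin n ⊕ Bool)) (hS : IsIndepDom (seed n) S) :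
    3 ≤ S.card := by
  obtain ⟨c, hc⟩ : ∃ c, Sum.inr c ∈ S := by
    by_cases h : Sum.inr true ∈ S
    · exact ⟨_, h⟩
    · obtain ⟨u, hu, hadj⟩ := hS.2 _ h
      rcases u with k | c
      · exact absurd hadj id
      · exact ⟨c, hu⟩
  obtain ⟨k, hk⟩ : ∃ k, Sum.inl k ∈ S := by
    by_cases h : Sum.inl ⟨0, by omega⟩ ∈ S
    · exact ⟨_, h⟩
    · obtain ⟨u, hu, hadj⟩ := hS.2 _ h
      rcases u with k | c
      · exact ⟨k, hu⟩
      · exact absurd hadj id
  obtain ⟨l, hl, hkl⟩ : ∃ l, Sum.inl l ∈ S ∧ k ≠ l := by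
    by_cases h : Sum.inl (nx k) ∈ S
    · refine ⟨_, h, ?_⟩
      intro h1
      have a1 := nx_val k
      have a4 := congrArg Fin.val h1
      omega
    · obtain ⟨u, hu, hadj⟩ := hS.2 _ h
      rcases u with l | c
      · refine ⟨l, hu, ?_⟩
        rintro rfl
        exact hadj.2.1 rfl
      · exact absurd hadj id
  have h3 : ({Sum.inl k, Sum.inl l, Sum.inr c} : Finset (Fin n ⊕ Bool)).card = 3 := by
    rw [Finset.card_insert_of_notMem, Finset.card_insert_of_notMem, Finset.card_singleton]
    · simp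
    · simp [hkl]
  rw [← h3]
  apply Finset.card_le_card
  intro x hx
  simp only [Finset.mem_insert, Finset.mem_singleton] at hx
  rcases hx with rfl | rfl | rfl
  · exact hk
  · exact hl
  · exact hc

lemma seed_num {n : ℕ} (hn : 4 ≤ n) : indepDomNum (seed n) = 3 := by
  apply le_antisymm
  · exact Nat.sInf_le ⟨rep (⟨0, by omega⟩, true), rep_indepDom hn _, card_rep hn _⟩
  · have hne : {k : ℕ | ∃ S : Finset (Fin n ⊕ Bool), IsIndepDom (seed n) S ∧ S.card = k}.Nonempty :=
      ⟨3, rep (⟨0, by omega⟩, true), rep_indepDom hn _, card_rep hn _⟩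
    apply le_csInf hne
    rintro k ⟨S, hS, rfl⟩
    exact three_le hn S hS

/-- The vertex of the `i`-graph of the seed graph given by a vertex of the prism. -/
def repV {n : ℕ} (hn : 4 ≤ n) (x : Fin n × Bool) : {S // IsISet (seed n) S} :=
  ⟨rep x, rep_indepDom hn x, by rw [card_rep hn, seed_num hn]⟩

lemma rep_inj {n : ℕ} (hn : 4 ≤ n) {x y : Fin n × Bool} (h : rep x = rep y) : x = y := by
  obtain ⟨i, b⟩ := x
  obtain ⟨j, c⟩ := y
  have h1 : Sum.inr b ∈ rep (j, c) := by rw [← h, mem_rep_inr]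
  have h2 : Sum.inl i ∈ rep (j, c) := by rw [← h, mem_rep_inl]; left; rfl
  have h3 : Sum.inl (nx i) ∈ rep (j, c) := by rw [← h, mem_rep_inl]; right; rfl
  rw [mem_rep_inr] at h1
  rw [mem_rep_inl] at h2 h3
  simp only at h1 h2 h3
  have a1 := nx_val i
  have a2 := nx_val j
  rw [Prod.mk.injEq]
  refine ⟨?_, h1⟩
  apply Fin.ext
  rcases h2 with h2 | h2
  · rw [h2]
  · have b2 := congrArg Fin.val h2
    rcases h3 with h3 | h3
    · have b3 := congrArg Fin.val h3
      omega
    · have b3 := congrArg Fin.val h3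
      omega

/-- Adjacency in the prism over an `n`-cycle. -/
def prismAdj {n : ℕ} (x y : Fin n × Bool) : Prop :=
  (x.1 = y.1 ∧ x.2 ≠ y.2) ∨ (x.2 = y.2 ∧ (y.1 = nx x.1 ∨ x.1 = nx y.1))

lemma adj_of_next {n : ℕ} (hn : 4 ≤ n) (i : Fin n) (b : Bool) :
    (iGraph (seed n)).Adj (repV hn (i, b)) (repV hn (nx i, b)) := by
  have a1 := nx_val i
  have a2 := nx_val (nx i)
  have a3 := nx_val (nx (nx i))
  have n1 : nx (nx i) ≠ i := fun h => by have := congrArg Fin.val h; omega
  have n2 : nx (nx i) ≠ nx i := fun h => by have := congrArg Fin.val h; omega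
  have n3 : nx (nx (nx i)) ≠ i := fun h => by have := congrArg Fin.val h; omega
  have n4 : nx i ≠ i := fun h => by have := congrArg Fin.val h; omega
  refine ⟨Sum.inl i, (mem_rep_inl _ _).2 (Or.inl rfl), Sum.inl (nx (nx i)), ?_, ?_, ?_⟩
  · intro h
    rcases (mem_rep_inl _ _).1 h with h | h
    · exact n1 h
    · exact n2 h
  · exact ⟨n1.symm, n2, n3.symm⟩
  · ext v
    change v ∈ rep (nx i, b) ↔ _
    rw [Set.mem_union, Set.mem_sdiff, Set.mem_singleton_iff, Set.mem_singleton_iff]
    change v ∈ rep (nx i, b) ↔ (v ∈ rep (i, b) ∧ _) ∨ _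
    rcases v with k | c
    · rw [mem_rep_inl, mem_rep_inl]
      simp only [Sum.inl.injEq]
      constructor
      · rintro (rfl | rfl)
        · exact Or.inl ⟨Or.inr rfl, n4⟩
        · exact Or.inr rfl
      · rintro (⟨h | h, h'⟩ | h)
        · exact absurd h h'
        · exact Or.inl h
        · exact Or.inr h
    · rw [mem_rep_inr, mem_rep_inr]
      simp

lemma adj_iff {n : ℕ} (hn : 4 ≤ n) (x y : Fin n × Bool) :
    (iGraph (seed n)).Adj (repV hn x) (repV hn y) ↔ prismAdj x y := by
  obtain ⟨i, b⟩ := x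
  obtain ⟨j, c⟩ := y
  constructor
  · intro h
    have hne : (i, b) ≠ (j, c) := by
      rintro h1
      rw [h1] at h
      exact (iGraph (seed n)).irrefl h
    obtain ⟨u, hu, huY, v, hv, -, hmem⟩ := iGraph_adj_mem h
    change u ∈ rep (i, b) at hu
    change u ∉ rep (j, c) at huY
    change v ∉ rep (i, b) at hv
    change ∀ w, w ∈ rep (j, c) ↔ (w ∈ rep (i, b) ∧ w ≠ u) ∨ w = v at hmem
    have a1 := nx_val i
    have a2 := nx_val j
    unfold prismAdj
    simp only
    by_cases hbc : b = c
    · subst hbc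
      right
      refine ⟨rfl, ?_⟩
      rcases u with k | d
      · rw [mem_rep_inl] at hu huY
        simp only at hu huY
        rcases hu with rfl | rfl
        · -- `u = i`
          left
          have h1 : Sum.inl (nx k) ∈ rep (j, b) := by
            rw [hmem]
            left
            refine ⟨(mem_rep_inl _ _).2 (Or.inr rfl), ?_⟩
            intro h2
            rw [Sum.inl.injEq] at h2
            have := congrArg Fin.val h2
            omega
          rw [mem_rep_inl] at h1
          simp only at h1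
          rcases h1 with h1 | h1
          · exact h1.symm
          · exfalso
            apply hne
            rw [Prod.mk.injEq]
            refine ⟨?_, rfl⟩
            apply Fin.ext
            have := congrArg Fin.val h1
            omega
        · right
          have h1 : Sum.inl i ∈ rep (j, b) := by
            rw [hmem]
            left
            refine ⟨(mem_rep_inl _ _).2 (Or.inl rfl), ?_⟩
            intro h2
            rw [Sum.inl.injEq] at h2
            have := congrArg Fin.val h2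
            omega
          rw [mem_rep_inl] at h1
          simp only at h1
          rcases h1 with h1 | h1
          · exfalso
            apply hne
            rw [h1]
          · exact h1
      · exfalso
        rw [mem_rep_inr] at hu huY
        exact huY hu
    · left
      refine ⟨?_, hbc⟩
      have hu' : u = Sum.inr b := by
        by_contra hne'
        have h1 : Sum.inr b ∈ rep (j, c) := by
          rw [hmem]
          left
          exact ⟨(mem_rep_inr _ _).2 rfl, fun h => hne' h.symm⟩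
        rw [mem_rep_inr] at h1
        exact hbc h1
      subst hu'
      have h1 : Sum.inl i ∈ rep (j, c) := by
        rw [hmem]
        left
        exact ⟨(mem_rep_inl _ _).2 (Or.inl rfl), by simp⟩
      have h2 : Sum.inl (nx i) ∈ rep (j, c) := by
        rw [hmem]
        left
        exact ⟨(mem_rep_inl _ _).2 (Or.inr rfl), by simp⟩
      rw [mem_rep_inl] at h1 h2
      simp only at h1 h2
      apply Fin.ext
      rcases h1 with h1 | h1
      · rw [h1]
      · have b2 := congrArg Fin.val h1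
        rcases h2 with h2 | h2
        · have b3 := congrArg Fin.val h2
          omega
        · have b3 := congrArg Fin.val h2
          omega
  · rintro (⟨h1, h2⟩ | ⟨h1, h2 | h2⟩)
    · simp only at h1 h2
      subst h1
      refine ⟨Sum.inr b, (mem_rep_inr _ _).2 rfl, Sum.inr c, ?_, h2, ?_⟩
      · intro h
        exact h2 ((mem_rep_inr _ _).1 h).symm
      · ext v
        change v ∈ rep (i, c) ↔ _
        rw [Set.mem_union, Set.mem_sdiff, Set.mem_singleton_iff, Set.mem_singleton_iff]
        change v ∈ rep (i, c) ↔ (v ∈ rep (i, b) ∧ _) ∨ _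
        rcases v with k | d
        · rw [mem_rep_inl, mem_rep_inl]
          simp
        · rw [mem_rep_inr, mem_rep_inr]
          simp
    · simp only at h1 h2
      subst h1
      subst h2
      exact adj_of_next hn i b
    · simp only at h1 h2
      subst h1
      subst h2
      exact (adj_of_next hn j b).symm

/-- Straightening the Moebius ladder once the rung `j` is removed. -/
def flip {n : ℕ} (j : Fin n) (x : Fin n × Bool) : Fin n × Bool :=
  (x.1, if j < x.1 then !x.2 else x.2)

lemma flip_adj {n : ℕ} (hn : 4 ≤ n) (j : Fin n) (x y : Fin n × Bool) (hx : x.1 ≠ j)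
    (hy : y.1 ≠ j) : prismAdj (flip j x) (flip j y) ↔ (mobius n (by omega)).Adj x y := by
  obtain ⟨i, b⟩ := x
  obtain ⟨k, c⟩ := y
  have a1 := nx_val i
  have a2 := nx_val k
  have e1 : k = nx i ↔ (i.val + 1 = k.val ∨ (i.val + 1 = n ∧ k.val = 0)) := by
    rw [Fin.ext_iff]
    have := k.2
    omega
  have e2 : i = nx k ↔ (k.val + 1 = i.val ∨ (k.val + 1 = n ∧ i.val = 0)) := by
    rw [Fin.ext_iff]
    have := i.2
    omega
  have hx' : i.val ≠ j.val := fun h => hx (Fin.ext h)
  have hy' : k.val ≠ j.val := fun h => hy (Fin.ext h)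
  change _ ↔ ((i = k ∧ b ≠ c) ∨ mstep n (i, b) (k, c) ∨ mstep n (k, c) (i, b))
  unfold prismAdj flip mstep
  simp only [e1, e2]
  have hi := i.2
  have hk := k.2
  have hj := j.2
  simp only [Fin.lt_def, Fin.ext_iff]
  cases b <;> cases c <;> by_cases h1 : j.val < i.val <;> by_cases h2 : j.val < k.val <;>
    simp [h1, h2] <;> omega

end Ladders

lemma IsIGraph.congr {W W' : Type} {H : SimpleGraph W} {H' : SimpleGraph W'} (e : H ≃g H') :
    IsIGraph H ↔ IsIGraph H' := by
  constructor
  · rintro ⟨V, i, G, ⟨φ⟩⟩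
    exact ⟨V, i, G, ⟨e.symm.trans φ⟩⟩
  · rintro ⟨V, i, G, ⟨φ⟩⟩
    exact ⟨V, i, G, ⟨e.trans φ⟩⟩

/-- There is no finite set `F` of graphs such that a graph `H` (with at least one vertex) is an
`i`-graph if and only if no induced subgraph of `H` is isomorphic to a member of `F`. -/
theorem result : ¬ ∃ F : Finset (Σ n : ℕ, SimpleGraph (Fin n)),
    ∀ (n : ℕ) (H : SimpleGraph (Fin n)), 0 < n →
      (IsIGraph H ↔ ∀ P ∈ F, ¬ Nonempty (P.2 ↪g H)) := by
  classical
  rintro ⟨F, hF⟩
  have hF' : ∀ (W : Type) [Fintype W] [Nonempty W] (H : SimpleGraph W),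
      (IsIGraph H ↔ ∀ P ∈ F, ¬ Nonempty (P.2 ↪g H)) := by
    intro W _ _ H
    let e := Fintype.equivFin W
    let H' : SimpleGraph (Fin (Fintype.card W)) := H.comap e.symm
    have φ : H' ≃g H := SimpleGraph.Iso.comap e.symm H
    have h1 := hF _ H' Fintype.card_pos
    rw [← IsIGraph.congr φ, h1]
    constructor
    · rintro h P hP ⟨f⟩
      exact h P hP ⟨f.trans φ.symm.toEmbedding⟩
    · rintro h P hP ⟨f⟩
      exact h P hP ⟨f.trans φ.toEmbedding⟩
  obtain ⟨m, hm⟩ : ∃ m : ℕ, ∀ P ∈ F, P.1 ≤ m := by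
    refine ⟨F.sup (fun P => P.1), fun P hP => ?_⟩
    exact Finset.le_sup (f := fun P : (Σ n : ℕ, SimpleGraph (Fin n)) => P.1) hP
  obtain ⟨n, hn⟩ : ∃ n : ℕ, n = m + 4 := ⟨_, rfl⟩
  have hn4 : 4 ≤ n := by omega
  have hn3 : 3 ≤ n := by omega
  have hne : Nonempty (Fin n × Bool) := ⟨(⟨0, by omega⟩, true)⟩
  have h1 := (hF' (Fin n × Bool) (mobius n hn3)).not.1 (mobius_not_iGraph n hn3)
  push Not at h1
  obtain ⟨P, hP, ⟨f⟩⟩ := h1
  -- a rung not met by the image
  obtain ⟨j, hj⟩ : ∃ j : Fin n, ∀ x, (f x).1 ≠ j := by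
    by_contra hcon
    push Not at hcon
    have h2 : Fintype.card (Fin n) ≤ Fintype.card (Fin P.1) :=
      Fintype.card_le_of_surjective (fun x => (f x).1) hcon
    rw [Fintype.card_fin, Fintype.card_fin] at h2
    have := hm P hP
    omega
  have hfin : Finite {S // IsISet (seed n) S} := Subtype.finite
  have hfin' : Fintype {S // IsISet (seed n) S} := Fintype.ofFinite _
  have hne' : Nonempty {S // IsISet (seed n) S} := ⟨repV hn4 (⟨0, by omega⟩, true)⟩
  have h3 : IsIGraph (iGraph (seed n)) := ⟨_, inferInstance, seed n, ⟨SimpleGraph.Iso.refl⟩⟩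
  refine (hF' _ (iGraph (seed n))).1 h3 P hP ⟨⟨⟨fun x => repV hn4 (flip j (f x)), ?_⟩, ?_⟩⟩
  · intro x y hxy
    apply f.injective
    have h4 := rep_inj hn4 (congrArg Subtype.val hxy)
    unfold flip at h4
    rw [Prod.mk.injEq] at h4
    obtain ⟨h5, h6⟩ := h4
    rw [h5] at h6
    apply Prod.ext h5
    split_ifs at h6
    · simpa using h6
    · exact h6
  · intro x y
    change (iGraph (seed n)).Adj (repV hn4 (flip j (f x))) (repV hn4 (flip j (f y))) ↔ _
    rw [adj_iff, flip_adj hn4 j _ _ (hj x) (hj y)]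
    exact f.map_adj_iff

end Pool.Agent.Results.MP_540c93_co.NoFiniteFamily
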